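import Pool.Agent.H87.AM.Deg

/-!
# Approximate degree is at most a constant times the dual adversary value

Cesaro average of `⟪0|, U_x ^ k |0⟩` (no spectral theorem, no phase estimation).
-/

set_option linter.unusedSectionVars false

namespace Pool.Agent.H69.AC

open Finset H87AM
open scoped InnerProductSpace

variable {ι : Type} [Fintype ι] [DecidableEq ι] {H : Type} [NormedAddCommGroup H]
  [InnerProductSpace ℝ H]

/-- The space of the walk. -/
abbrev Sp (ι : Type) (H : Type) : Type :=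
  PiLp 2 (fun _ : Option (ι × Bool) => H)

/-- The sign of the query reflection at a basis label. -/
def sgn (x : ι → Bool) : Option (ι × Bool) → ℝ
  | none => 1
  | some a => sg (x a.1) * sg a.2

lemma sgn_sq (x : ι → Bool) (a : Option (ι × Bool)) : sgn x a * sgn x a = 1 := by
  cases a with
  | none => simp [sgn]
  | some a =>
    show sg (x a.1) * sg a.2 * (sg (x a.1) * sg a.2) = 1
    have h1 := sg_mul_self (x a.1)
    have h2 := sg_mul_self a.2
    linear_combination (sg a.2 * sg a.2) * h1 + h2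

/-- The query reflection. -/
noncomputable def R (x : ι → Bool) (g : Sp ι H) : Sp ι H :=
  WithLp.toLp 2 (fun a => sgn x a • g a)

@[simp] lemma R_apply (x : ι → Bool) (g : Sp ι H) (a : Option (ι × Bool)) :
    R x g a = sgn x a • g a := rfl

lemma R_add (x : ι → Bool) (g h : Sp ι H) : R x (g + h) = R x g + R x h := by
  ext a; simp [smul_add]

lemma R_smul (x : ι → Bool) (c : ℝ) (g : Sp ι H) : R x (c • g) = c • R x g := by
  ext a; simp [smul_smul, mul_comm]

lemma R_sub (x : ι → Bool) (g h : Sp ι H) : R x (g - h) = R x g - R x h := by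
  ext a; simp [smul_sub]

lemma norm_R (x : ι → Bool) (g : Sp ι H) : ‖R x g‖ = ‖g‖ := by
  have h : ‖R x g‖ ^ 2 = ‖g‖ ^ 2 := by
    rw [PiLp.norm_sq_eq_of_L2, PiLp.norm_sq_eq_of_L2]
    apply Finset.sum_congr rfl
    intro a _
    rw [R_apply, norm_smul, mul_pow]
    have : ‖sgn x a‖ ^ 2 = 1 := by
      rw [Real.norm_eq_abs, sq_abs, pow_two]; exact sgn_sq x a
    rw [this, one_mul]
  exact (sq_eq_sq₀ (norm_nonneg _) (norm_nonneg _)).1 h

lemma inner_eq (g h : Sp ι H) : ⟪g, h⟫_ℝ = ∑ a, ⟪g a, h a⟫_ℝ := PiLp.inner_apply g h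

lemma inner_single (a : Option (ι × Bool)) (v : H) (g : Sp ι H) :
    ⟪PiLp.single 2 a v, g⟫_ℝ = ⟪v, g a⟫_ℝ := by
  classical
  rw [inner_eq, Finset.sum_eq_single a]
  · simp
  · intro b _ hb; simp [hb]
  · intro h; exact absurd (Finset.mem_univ a) h

variable (K : Submodule ℝ (Sp ι H)) [K.HasOrthogonalProjection]

/-- One step of the walk. -/
noncomputable def U (x : ι → Bool) (g : Sp ι H) : Sp ι H := - R x (K.reflection g)

lemma U_add (x : ι → Bool) (g h : Sp ι H) : U K x (g + h) = U K x g + U K x h := by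
  unfold U; rw [map_add, R_add, neg_add]

lemma U_sub (x : ι → Bool) (g h : Sp ι H) : U K x (g - h) = U K x g - U K x h := by
  unfold U; rw [map_sub, R_sub]; abel

lemma norm_U (x : ι → Bool) (g : Sp ι H) : ‖U K x g‖ = ‖g‖ := by
  unfold U; rw [norm_neg, norm_R, LinearIsometryEquiv.norm_map]

/-- Iterates. -/
noncomputable def Uk (x : ι → Bool) : ℕ → Sp ι H → Sp ι H
  | 0, g => g
  | k + 1, g => U K x (Uk x k g)

lemma Uk_sub (x : ι → Bool) (k : ℕ) (g h : Sp ι H) :
    Uk K x k (g - h) = Uk K x k g - Uk K x k h := by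
  induction k with
  | zero => rfl
  | succ k ih => simp only [Uk]; rw [ih, U_sub]

lemma Uk_fix (x : ι → Bool) (k : ℕ) {g : Sp ι H} (hg : U K x g = g) :
    Uk K x k g = g := by
  induction k with
  | zero => rfl
  | succ k ih => simp only [Uk]; rw [ih, hg]

lemma Uk_succ' (x : ι → Bool) (k : ℕ) (g : Sp ι H) :
    Uk K x (k + 1) g = Uk K x k (U K x g) := by
  induction k with
  | zero => rfl
  | succ k ih => rw [Uk, ih]; rfl

lemma norm_Uk (x : ι → Bool) (k : ℕ) (g : Sp ι H) : ‖Uk K x k g‖ = ‖g‖ := by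
  induction k with
  | zero => rfl
  | succ k ih => simp only [Uk]; rw [norm_U, ih]

lemma reflection_inner (g h : Sp ι H) : ⟪g, K.reflection h⟫_ℝ = ⟪K.reflection g, h⟫_ℝ := by
  have h1 := LinearIsometryEquiv.inner_map_map K.reflection g (K.reflection h)
  rw [Submodule.reflection_reflection] at h1
  exact h1.symm

/-- Degree of the iterates. -/
lemma deg_Uk (e : Sp ι H) (k : ℕ) : ∀ z : Sp ι H,
    (fun x => ⟪z, Uk K x k e⟫_ℝ) ∈ Deg ι k := by
  classical
  induction k with
  | zero => intro z; exact Deg.const_mem 0 (⟪z, e⟫_ℝ)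
  | succ k ih =>
    intro z
    have h1 : ∀ x : ι → Bool, ⟪z, Uk K x (k + 1) e⟫_ℝ =
        - ∑ a, sgn x a * ⟪K.reflection (PiLp.single 2 a (z a)), Uk K x k e⟫_ℝ := by
      intro x
      simp only [Uk, U]
      rw [inner_neg_right, inner_eq]
      congr 1
      apply Finset.sum_congr rfl
      intro a _
      rw [R_apply, inner_smul_right, ← reflection_inner, inner_single]
    have h2 : (fun x => ⟪z, Uk K x (k + 1) e⟫_ℝ) = fun x => (-1 : ℝ) *
        ∑ a, sgn x a * ⟪K.reflection (PiLp.single 2 a (z a)), Uk K x k e⟫_ℝ := by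
      funext x; rw [h1]; ring
    rw [h2]
    apply Deg.smul_mem'
    apply Deg.sum_mem'
    intro a _
    have h3 : (fun x : ι → Bool => sgn x a) ∈ Deg ι 1 := by
      cases a with
      | none => exact Deg.const_mem 1 1
      | some a =>
        have := Deg.smul_mem' (sg a.2) (Deg.coord_mem (ι := ι) a.1)
        have h4 : (fun x : ι → Bool => sgn x (some a)) =
            fun x => sg a.2 * sg (x a.1) := by funext x; simp [sgn, mul_comm]
        rw [h4]; exact this
    have h5 := Deg.mul_mem' h3 (ih (K.reflection (PiLp.single 2 a (z a))))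
    rw [add_comm k 1]; exact h5

/-- The Cesaro average. -/
noncomputable def ces (e : Sp ι H) (d : ℕ) (x : ι → Bool) : ℝ :=
  (1 / (d : ℝ)) * ∑ k ∈ Finset.range d, ⟪e, Uk K x k e⟫_ℝ

lemma ces_deg (e : Sp ι H) (d : ℕ) : ces K e d ∈ Deg ι d := by
  unfold ces
  apply Deg.smul_mem'
  apply Deg.sum_mem'
  intro k hk
  exact Deg.mono' (Finset.mem_range.1 hk).le (deg_Uk K e k e)

lemma ces_le_one {e : Sp ι H} (he : ‖e‖ = 1) {d : ℕ} (hd : 0 < d) (x : ι → Bool) :
    |ces K e d x| ≤ 1 := by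
  unfold ces
  have hd' : (0:ℝ) < d := by exact_mod_cast hd
  rw [abs_mul, abs_of_pos (by positivity)]
  have h : |∑ k ∈ Finset.range d, ⟪e, Uk K x k e⟫_ℝ| ≤ d := by
    refine le_trans (Finset.abs_sum_le_sum_abs _ _) ?_
    refine le_trans (Finset.sum_le_sum (g := fun _ => (1:ℝ)) fun k _ => ?_) (by simp)
    have := abs_real_inner_le_norm e (Uk K x k e)
    rw [norm_Uk, he, one_mul] at this
    exact this
  calc 1 / (d:ℝ) * _ ≤ 1 / (d:ℝ) * d := by gcongr
    _ = 1 := by field_simp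

/-- Positive inputs. -/
lemma ces_pos {x : ι → Bool} {e ψ : Sp ι H} {s : ℝ} (hfix : U K x ψ = ψ) (hin : ⟪e, ψ⟫_ℝ = 1) (he : ‖e‖ = 1)
    (hs : ‖ψ - e‖ ≤ s) {d : ℕ} (hd : 0 < d) : 1 - s ≤ ces K e d x := by
  unfold ces
  have hd' : (0:ℝ) < d := by exact_mod_cast hd
  have h : ∀ k ∈ Finset.range d, 1 - s ≤ ⟪e, Uk K x k e⟫_ℝ := by
    intro k _
    have h1 : Uk K x k e = ψ - Uk K x k (ψ - e) := by
      rw [Uk_sub, Uk_fix K x k hfix]; abel
    rw [h1, inner_sub_right, hin]
    have := abs_real_inner_le_norm e (Uk K x k (ψ - e))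
    rw [norm_Uk, he, one_mul] at this
    have := (abs_le.1 this).2
    linarith
  have h2 := Finset.sum_le_sum h
  rw [Finset.sum_const, Finset.card_range, nsmul_eq_mul] at h2
  calc 1 - s = 1 / (d:ℝ) * (d * (1 - s)) := by field_simp
    _ ≤ _ := by gcongr

/-- Negative inputs. -/
lemma ces_neg {x : ι → Bool} {e φ : Sp ι H} {s : ℝ} (hfix : φ - U K x φ = (2:ℝ) • e) (he : ‖e‖ = 1)
    (hs : ‖φ‖ ≤ s) {d : ℕ} (hd : 0 < d) : |ces K e d x| ≤ s / d := by
  have hd' : (0:ℝ) < d := by exact_mod_cast hd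
  have h1 : ∀ k, Uk K x k ((2:ℝ) • e) = Uk K x k φ - Uk K x (k + 1) φ := by
    intro k
    rw [← hfix, Uk_sub, Uk_succ']
  have h2 : ∀ k, Uk K x k ((2:ℝ) • e) = (2:ℝ) • Uk K x k e := by
    intro k
    induction k with
    | zero => rfl
    | succ k ih =>
      simp only [Uk]
      rw [ih]
      unfold U
      rw [map_smul, R_smul, smul_neg]
  have h3 : 2 * ∑ k ∈ Finset.range d, ⟪e, Uk K x k e⟫_ℝ = ⟪e, φ - Uk K x d φ⟫_ℝ := by
    rw [Finset.mul_sum]
    have h4 : ∀ k ∈ Finset.range d, 2 * ⟪e, Uk K x k e⟫_ℝ =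
        ⟪e, Uk K x k φ⟫_ℝ - ⟪e, Uk K x (k+1) φ⟫_ℝ := by
      intro k _
      rw [← inner_sub_right, ← h1, h2, inner_smul_right]
    rw [Finset.sum_congr rfl h4, Finset.sum_range_sub']
    rw [inner_sub_right]; rfl
  have h5 : |⟪e, φ - Uk K x d φ⟫_ℝ| ≤ 2 * s := by
    refine le_trans (abs_real_inner_le_norm _ _) ?_
    rw [he, one_mul]
    refine le_trans (norm_sub_le _ _) ?_
    rw [norm_Uk]; linarith
  unfold ces
  rw [abs_mul, abs_of_pos (by positivity)]
  have h6 : |∑ k ∈ Finset.range d, ⟪e, Uk K x k e⟫_ℝ| ≤ s := by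
    rw [← h3, abs_mul, abs_of_pos (by norm_num : (0:ℝ) < 2)] at h5
    linarith
  calc 1 / (d:ℝ) * _ ≤ 1 / (d:ℝ) * s := by gcongr
    _ = s / d := by ring

/-- The positive witness. -/
noncomputable def psi (e0 : H) (c : ℝ) (x : ι → Bool) (u : ι → H) : Sp ι H :=
  WithLp.toLp 2 (fun a => match a with
    | none => e0
    | some a => if a.2 = x a.1 then c • u a.1 else 0)

/-- The negative witness. -/
noncomputable def phi (e0 : H) (c : ℝ) (x : ι → Bool) (v : ι → H) : Sp ι H :=
  WithLp.toLp 2 (fun a => match a with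
    | none => e0
    | some a => if a.2 = x a.1 then 0 else (-c) • v a.1)

lemma sum_option_prod (f : Option (ι × Bool) → ℝ) :
    ∑ a, f a = f none + ∑ i : ι, (f (some (i, true)) + f (some (i, false))) := by
  rw [Fintype.sum_option, Fintype.sum_prod_type]
  congr 1
  apply Finset.sum_congr rfl
  intro i _
  rw [Fintype.sum_bool]

lemma inner_psi_phi (e0 : H) (c c' : ℝ) (x y : ι → Bool) (u v : ι → H) :
    ⟪psi e0 c x u, phi e0 c' y v⟫_ℝ = ‖e0‖ ^ 2 -
      c * c' * ∑ i with x i ≠ y i, ⟪u i, v i⟫_ℝ := by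
  rw [inner_eq, sum_option_prod, Finset.sum_filter, Finset.mul_sum, sub_eq_add_neg,
    ← Finset.sum_neg_distrib]
  congr 1
  · show ⟪e0, e0⟫_ℝ = _
    exact real_inner_self_eq_norm_sq e0
  · apply Finset.sum_congr rfl
    intro i _
    cases hx : x i <;> cases hy : y i <;>
      simp [psi, phi, hx, hy, inner_smul_left, inner_smul_right, mul_assoc, mul_left_comm]

lemma norm_psi_sub (e0 : H) (c : ℝ) (x : ι → Bool) (u : ι → H) :
    ‖psi e0 c x u - PiLp.single 2 none e0‖ ^ 2 = c ^ 2 * ∑ i, ‖u i‖ ^ 2 := by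
  classical
  rw [PiLp.norm_sq_eq_of_L2, sum_option_prod, Finset.mul_sum]
  have h0 : ‖(psi e0 c x u - PiLp.single 2 none e0 : Sp ι H) none‖ ^ 2 = 0 := by
    simp [psi]
  rw [h0, zero_add]
  apply Finset.sum_congr rfl
  intro i _
  cases hx : x i <;> simp [psi, hx, norm_smul, mul_pow]

lemma norm_phi (e0 : H) (c : ℝ) (x : ι → Bool) (v : ι → H) :
    ‖phi e0 c x v‖ ^ 2 = ‖e0‖ ^ 2 + c ^ 2 * ∑ i, ‖v i‖ ^ 2 := by
  rw [PiLp.norm_sq_eq_of_L2, sum_option_prod, Finset.mul_sum]
  congr 1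
  apply Finset.sum_congr rfl
  intro i _
  cases hx : x i <;> simp [phi, hx, norm_smul, mul_pow]

lemma R_psi (e0 : H) (c : ℝ) (x : ι → Bool) (u : ι → H) :
    R x (psi e0 c x u) = psi e0 c x u := by
  ext a
  rw [R_apply]
  match a with
  | none => simp [sgn]
  | some (i, b) =>
    cases hx : x i <;> cases b <;> simp [sgn, psi, hx]

lemma R_phi (e0 : H) (c : ℝ) (x : ι → Bool) (v : ι → H) :
    phi e0 c x v + R x (phi e0 c x v) = (2:ℝ) • PiLp.single 2 none e0 := by
  classical
  ext a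
  rw [PiLp.add_apply, R_apply]
  match a with
  | none => simp [sgn, phi, two_smul]
  | some (i, b) =>
    cases hx : x i <;> cases b <;> simp [sgn, phi, hx]

/-- **Approximate degree is `O(dual adversary value)`.** -/
theorem adeg {F : (ι → Bool) → Bool} {W : ℝ} (hW : 1 ≤ W)
    {u v : (ι → Bool) → ι → H}
    (hu : ∀ x, ∑ i, ‖u x i‖ ^ 2 ≤ W) (hv : ∀ x, ∑ i, ‖v x i‖ ^ 2 ≤ W)
    (hK : ∀ x y, F x = true → F y = false → ∑ i with x i ≠ y i, ⟪u x i, v y i⟫_ℝ = 1)
    {d : ℕ} (hd : 901 * W ≤ d) :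
    ∃ f ∈ Deg ι d, (∀ x, |f x| ≤ 1) ∧ (∀ x, F x = true → 7 / 8 ≤ f x) ∧
      (∀ x, F x = false → f x ≤ -(7 / 8)) := by
  classical
  by_cases hT : ∀ x, F x = false
  · refine ⟨fun _ => -1, Deg.const_mem d (-1), fun x => by norm_num, fun x hx => ?_,
      fun x _ => by norm_num⟩
    rw [hT x] at hx; exact absurd hx (by decide)
  by_cases hN : ∀ x, F x = true
  · refine ⟨fun _ => 1, Deg.const_mem d 1, fun x => by norm_num, fun x _ => by norm_num,
      fun x hx => ?_⟩
    rw [hN x] at hx; exact absurd hx (by decide)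
  push Not at hT hN
  obtain ⟨x0, hx0⟩ := hT
  obtain ⟨y0, hy0⟩ := hN
  have hx0' : F x0 = true := by simpa using hx0
  have hy0' : F y0 = false := by simpa using hy0
  obtain ⟨e0, he0⟩ : ∃ e0 : H, ‖e0‖ = 1 := by
    have h1 := hK x0 y0 hx0' hy0'
    have h2 : ∃ i, u x0 i ≠ 0 := by
      by_contra hcon
      push Not at hcon
      rw [Finset.sum_eq_zero (fun i _ => by rw [hcon i, inner_zero_left])] at h1
      exact absurd h1 (by norm_num)
    obtain ⟨i, hi⟩ := h2
    exact ⟨(‖u x0 i‖⁻¹ : ℝ) • u x0 i, by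
      rw [norm_smul, norm_inv, norm_norm, inv_mul_cancel₀ (norm_ne_zero_iff.2 hi)]⟩
  set e : Sp ι H := PiLp.single 2 none e0 with he
  have hen : ‖e‖ = 1 := by rw [he, PiLp.norm_single, he0]
  set c : ℝ := Real.sqrt (900 * W) with hc
  have hc2 : c ^ 2 = 900 * W := Real.sq_sqrt (by positivity)
  have hcpos : 0 < c := Real.sqrt_pos.2 (by positivity)
  set S : Set (Sp ι H) := (fun y => phi e0 c y (v y)) '' {y | F y = false} with hS
  have hSfin : S.Finite := (Set.toFinite _).image _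
  let K : Submodule ℝ (Sp ι H) := Submodule.span ℝ S
  have : FiniteDimensional ℝ K := FiniteDimensional.span_of_finite ℝ hSfin
  have hdpos' : (0:ℝ) < d := lt_of_lt_of_le (by positivity) hd
  have hdpos : 0 < d := by exact_mod_cast hdpos'
  have hpos : ∀ x, F x = true → 1 - 1/30 ≤ ces K e d x := by
    intro x hx
    have h1 : psi e0 c⁻¹ x (u x) ∈ Kᗮ := by
      rw [Submodule.mem_orthogonal]
      intro w hw
      induction hw using Submodule.span_induction with
      | mem w hw =>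
        obtain ⟨y, hy, rfl⟩ := hw
        rw [real_inner_comm, inner_psi_phi, hK x y hx hy, he0]
        field_simp
        norm_num
      | zero => simp
      | add a b _ _ ha hb => rw [inner_add_left, ha, hb, add_zero]
      | smul r a _ ha => rw [inner_smul_left, ha, mul_zero]
    have h2 : U K x (psi e0 c⁻¹ x (u x)) = psi e0 c⁻¹ x (u x) := by
      unfold U
      rw [Submodule.reflection_mem_subspace_orthogonalComplement_eq_neg h1]
      have h3 : R x (-(psi e0 c⁻¹ x (u x))) = - R x (psi e0 c⁻¹ x (u x)) := by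
        ext a
        simp
      rw [h3, R_psi, neg_neg]
    refine ces_pos K h2 ?_ hen ?_ hdpos
    · rw [he, inner_single]
      show ⟪e0, e0⟫_ℝ = 1
      rw [real_inner_self_eq_norm_sq, he0]; norm_num
    · have h3 := norm_psi_sub e0 c⁻¹ x (u x)
      have h4 : ‖psi e0 c⁻¹ x (u x) - e‖ ^ 2 ≤ (1/30) ^ 2 := by
        rw [he, h3, inv_pow, hc2]
        have h5 := hu x
        rw [inv_mul_le_iff₀ (by positivity)]
        linarith
      exact (sq_le_sq₀ (norm_nonneg _) (by norm_num)).1 h4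
  have hneg : ∀ x, F x = false → |ces K e d x| ≤ 1/30 := by
    intro x hx
    have h1 : phi e0 c x (v x) ∈ K := Submodule.subset_span ⟨x, hx, rfl⟩
    have h2 : phi e0 c x (v x) - U K x (phi e0 c x (v x)) = (2:ℝ) • e := by
      unfold U
      rw [Submodule.reflection_mem_subspace_eq_self h1, sub_neg_eq_add]
      exact R_phi e0 c x (v x)
    have h3 : ‖phi e0 c x (v x)‖ ≤ d / 30 := by
      have h4 : ‖phi e0 c x (v x)‖ ^ 2 ≤ (d/30) ^ 2 := by
        rw [norm_phi, he0, hc2]
        have h5 := hv x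
        have h6 : (1:ℝ) ^ 2 + 900 * W * ∑ i, ‖v x i‖ ^ 2 ≤ 1 + 900 * W * W := by
          have := mul_le_mul_of_nonneg_left h5 (show (0:ℝ) ≤ 900 * W by positivity)
          linarith
        have h7 : (901 * W) ^ 2 ≤ (d:ℝ) ^ 2 := by
          apply pow_le_pow_left₀ (by positivity) hd
        nlinarith
      exact (sq_le_sq₀ (norm_nonneg _) (by positivity)).1 h4
    have h5 := ces_neg K h2 hen h3 hdpos
    refine le_trans h5 (le_of_eq ?_)
    field_simp
  refine ⟨fun x => (15/16 : ℝ) * (2 * ces K e d x - 1), ?_, ?_, ?_, ?_⟩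
  · apply Deg.smul_mem'
    exact Deg.sub_mem' (Deg.smul_mem' 2 (ces_deg K e d)) (Deg.const_mem d 1)
  · intro x
    cases hx : F x with
    | true =>
      have h1 := hpos x hx
      have h2 := (abs_le.1 (ces_le_one K hen hdpos x)).2
      rw [abs_le]; constructor <;> linarith
    | false =>
      have h1 := abs_le.1 (hneg x hx)
      rw [abs_le]; constructor <;> linarith [h1.1, h1.2]
  · intro x hx
    have h1 := hpos x hx
    linarith
  · intro x hx
    have h1 := abs_le.1 (hneg x hx)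
    linarith [h1.2]

end Pool.Agent.H69.AC
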