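import Pool.Agent.H69.AC.Cesaro

/-!
# The `γ` calculus of the dual adversary

`Gam R K c`: the kernel `K` has, on the pairs in `R`, a representation
`K x y = ∑_{i : x i ≠ y i} ⟪u x i, v y i⟫` with `∑ ‖u x i‖ ^ 2 ≤ c`, `∑ ‖v y i‖ ^ 2 ≤ c`.
`G2 R M m`: `M s t = ⟪a s, b t⟫` on `R` with `‖a s‖ ^ 2 ≤ m`, `‖b t‖ ^ 2 ≤ m`.
-/

set_option linter.unusedSectionVars false

namespace Pool.Agent.H69.AC

open Finset
open scoped InnerProductSpace TensorProduct

variable {ι κ : Type} [Fintype ι] [Fintype κ]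

/-- The `γ` predicate. -/
def Gam (R : (ι → Bool) → (ι → Bool) → Prop) (K : (ι → Bool) → (ι → Bool) → ℝ) (c : ℝ) : Prop :=
  ∃ (H : Type) (_ : NormedAddCommGroup H) (_ : InnerProductSpace ℝ H)
    (u v : (ι → Bool) → ι → H),
    (∀ x, ∑ i, ‖u x i‖ ^ 2 ≤ c) ∧ (∀ y, ∑ i, ‖v y i‖ ^ 2 ≤ c) ∧
    ∀ x y, R x y → ∑ i with x i ≠ y i, ⟪u x i, v y i⟫_ℝ = K x y

/-- The `γ_2` predicate. -/
def G2 {S T : Type} (R : S → T → Prop) (M : S → T → ℝ) (m : ℝ) : Prop :=
  ∃ (H : Type) (_ : NormedAddCommGroup H) (_ : InnerProductSpace ℝ H)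
    (a : S → H) (b : T → H), (∀ s, ‖a s‖ ^ 2 ≤ m) ∧ (∀ t, ‖b t‖ ^ 2 ≤ m) ∧
    ∀ s t, R s t → ⟪a s, b t⟫_ℝ = M s t

lemma sum_ne (x y : ι → Bool) (f : ι → ℝ) :
    ∑ i with x i ≠ y i, f i = ∑ i, if x i = y i then 0 else f i := by
  rw [Finset.sum_filter]
  refine Finset.sum_congr rfl fun i _ => ?_
  by_cases h : x i = y i <;> simp [h]

/-- `Adv (A, B) ≤ c`. -/
def Adv (A B : (ι → Bool) → Prop) (c : ℝ) : Prop :=
  Gam (fun x y => A x ∧ B y) (fun _ _ => 1) c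

lemma Gam.nonneg {R : (ι → Bool) → (ι → Bool) → Prop} {K : (ι → Bool) → (ι → Bool) → ℝ} {c : ℝ}
    (h : Gam R K c) : 0 ≤ c := by
  obtain ⟨H, _, _, u, v, hu, -, -⟩ := h
  exact le_trans (Finset.sum_nonneg fun i _ => by positivity) (hu (fun _ => false))

lemma Gam.mono {R R' : (ι → Bool) → (ι → Bool) → Prop} {K K' : (ι → Bool) → (ι → Bool) → ℝ}
    {c c' : ℝ} (h : Gam R K c) (hc : c ≤ c') (hR : ∀ x y, R' x y → R x y)
    (hK : ∀ x y, R' x y → K' x y = K x y) : Gam R' K' c' := by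
  obtain ⟨H, i1, i2, u, v, hu, hv, hk⟩ := h
  exact ⟨H, i1, i2, u, v, fun x => (hu x).trans hc, fun x => (hv x).trans hc,
    fun x y hxy => by rw [hK x y hxy]; exact hk x y (hR x y hxy)⟩

lemma Gam.le {R : (ι → Bool) → (ι → Bool) → Prop} {K : (ι → Bool) → (ι → Bool) → ℝ}
    {c c' : ℝ} (h : Gam R K c) (hc : c ≤ c') : Gam R K c' :=
  h.mono hc (fun _ _ h => h) (fun _ _ _ => rfl)

lemma Gam.congr {R : (ι → Bool) → (ι → Bool) → Prop} {K K' : (ι → Bool) → (ι → Bool) → ℝ}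
    {c : ℝ} (h : Gam R K c) (hK : ∀ x y, R x y → K' x y = K x y) : Gam R K' c :=
  h.mono le_rfl (fun _ _ h => h) hK

lemma Gam.zero (R : (ι → Bool) → (ι → Bool) → Prop) : Gam R (fun _ _ => 0) 0 :=
  ⟨ℝ, inferInstance, inferInstance, fun _ _ => 0, fun _ _ => 0, fun _ => by simp,
    fun _ => by simp, fun _ _ _ => by simp⟩

lemma Gam.swap {R : (ι → Bool) → (ι → Bool) → Prop} {K : (ι → Bool) → (ι → Bool) → ℝ}
    {c : ℝ} (h : Gam R K c) : Gam (fun x y => R y x) (fun x y => K y x) c := by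
  obtain ⟨H, i1, i2, u, v, hu, hv, hk⟩ := h
  refine ⟨H, i1, i2, v, u, hv, hu, fun x y hxy => ?_⟩
  beta_reduce
  rw [← hk y x hxy]
  apply Finset.sum_congr
  · ext i; simp [ne_comm]
  · intro i _; exact real_inner_comm _ _

lemma Gam.smul {R : (ι → Bool) → (ι → Bool) → Prop} {K : (ι → Bool) → (ι → Bool) → ℝ}
    {c : ℝ} (h : Gam R K c) (a : ℝ) : Gam R (fun x y => a * K x y) (|a| * c) := by
  obtain ⟨H, i1, i2, u, v, hu, hv, hk⟩ := h
  have hs : Real.sqrt |a| ^ 2 = |a| := Real.sq_sqrt (abs_nonneg a)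
  refine ⟨H, i1, i2, fun x i => (Real.sqrt |a| * SignType.sign a : ℝ) • u x i,
    fun y i => Real.sqrt |a| • v y i, fun x => ?_, fun y => ?_, fun x y hxy => ?_⟩
  · have h1 : ∀ i, ‖(Real.sqrt |a| * SignType.sign a : ℝ) • u x i‖ ^ 2 ≤ |a| * ‖u x i‖ ^ 2 := by
      intro i
      rw [norm_smul, mul_pow, Real.norm_eq_abs, sq_abs, mul_pow, hs]
      have h2 : ((SignType.sign a : SignType) : ℝ) ^ 2 ≤ 1 := by
        rcases lt_trichotomy a 0 with h | h | h
        · simp [sign_neg h]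
        · simp [h]
        · simp [sign_pos h]
      have h3 : 0 ≤ |a| * ‖u x i‖ ^ 2 := by positivity
      nlinarith
    refine le_trans (Finset.sum_le_sum fun i _ => h1 i) ?_
    rw [← Finset.mul_sum]
    exact mul_le_mul_of_nonneg_left (hu x) (abs_nonneg a)
  · have h1 : ∀ i, ‖Real.sqrt |a| • v y i‖ ^ 2 = |a| * ‖v y i‖ ^ 2 := by
      intro i
      rw [norm_smul, mul_pow, Real.norm_eq_abs, sq_abs, hs]
    simp_rw [h1]
    rw [← Finset.mul_sum]
    exact mul_le_mul_of_nonneg_left (hv y) (abs_nonneg a)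
  · beta_reduce
    rw [← hk x y hxy, Finset.mul_sum]
    apply Finset.sum_congr rfl
    intro i _
    rw [inner_smul_left, inner_smul_right]
    simp only [conj_trivial]
    have h4 : Real.sqrt |a| * (SignType.sign a : ℝ) * Real.sqrt |a| = a := by
      calc Real.sqrt |a| * (SignType.sign a : ℝ) * Real.sqrt |a| =
          Real.sqrt |a| ^ 2 * (SignType.sign a : ℝ) := by ring
        _ = |a| * (SignType.sign a : ℝ) := by rw [hs]
        _ = a := by rw [mul_comm]; exact sign_mul_abs a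
    rw [← mul_assoc, h4]

/-- Direct sums: (g1). -/
lemma Gam.mix {E : Type} [Fintype E] {R : (ι → Bool) → (ι → Bool) → Prop}
    {K : E → (ι → Bool) → (ι → Bool) → ℝ} {p q : (ι → Bool) → E → ℝ} {c : ℝ} (hc : 0 ≤ c)
    (hp : ∀ x, ∑ e, p x e ^ 2 ≤ 1) (hq : ∀ y, ∑ e, q y e ^ 2 ≤ 1)
    (h : ∀ e, Gam (fun x y => R x y ∧ p x e ≠ 0 ∧ q y e ≠ 0) (K e) c) :
    Gam R (fun x y => ∑ e, p x e * q y e * K e x y) c := by
  choose H i1 i2 u v hu hv hk using h
  refine ⟨PiLp 2 H, inferInstance, inferInstance,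
    fun x i => WithLp.toLp 2 (fun e => p x e • u e x i),
    fun y i => WithLp.toLp 2 (fun e => q y e • v e y i), fun x => ?_, fun y => ?_,
    fun x y hxy => ?_⟩
  · simp_rw [PiLp.norm_sq_eq_of_L2, norm_smul, mul_pow, Real.norm_eq_abs, sq_abs]
    rw [Finset.sum_comm]
    calc ∑ e, ∑ i, p x e ^ 2 * ‖u e x i‖ ^ 2 = ∑ e, p x e ^ 2 * ∑ i, ‖u e x i‖ ^ 2 := by
          simp_rw [Finset.mul_sum]
      _ ≤ ∑ e, p x e ^ 2 * c := Finset.sum_le_sum fun e _ =>
          mul_le_mul_of_nonneg_left (hu e x) (sq_nonneg _)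
      _ = (∑ e, p x e ^ 2) * c := by rw [Finset.sum_mul]
      _ ≤ 1 * c := mul_le_mul_of_nonneg_right (hp x) hc
      _ = c := one_mul c
  · simp_rw [PiLp.norm_sq_eq_of_L2, norm_smul, mul_pow, Real.norm_eq_abs, sq_abs]
    rw [Finset.sum_comm]
    calc ∑ e, ∑ i, q y e ^ 2 * ‖v e y i‖ ^ 2 = ∑ e, q y e ^ 2 * ∑ i, ‖v e y i‖ ^ 2 := by
          simp_rw [Finset.mul_sum]
      _ ≤ ∑ e, q y e ^ 2 * c := Finset.sum_le_sum fun e _ =>
          mul_le_mul_of_nonneg_left (hv e y) (sq_nonneg _)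
      _ = (∑ e, q y e ^ 2) * c := by rw [Finset.sum_mul]
      _ ≤ 1 * c := mul_le_mul_of_nonneg_right (hq y) hc
      _ = c := one_mul c
  · simp_rw [PiLp.inner_apply, inner_smul_left, inner_smul_right]
    rw [Finset.sum_comm]
    apply Finset.sum_congr rfl
    intro e _
    by_cases h0 : p x e ≠ 0 ∧ q y e ≠ 0
    · rw [← hk e x y ⟨hxy, h0⟩, Finset.mul_sum]
      apply Finset.sum_congr rfl
      intro i _
      simp only [conj_trivial]; ring
    · rw [not_and_or, not_not, not_not] at h0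
      rcases h0 with h0 | h0 <;> simp [h0]

/-- Sums of kernels. -/
lemma Gam.sum {E : Type} [Fintype E] {R : (ι → Bool) → (ι → Bool) → Prop}
    {K : E → (ι → Bool) → (ι → Bool) → ℝ} {c : E → ℝ}
    (h : ∀ e, Gam R (K e) (c e)) :
    Gam R (fun x y => ∑ e, K e x y) (∑ e, c e) := by
  choose H i1 i2 u v hu hv hk using h
  refine ⟨PiLp 2 H, inferInstance, inferInstance,
    fun x i => WithLp.toLp 2 (fun e => u e x i),
    fun y i => WithLp.toLp 2 (fun e => v e y i), fun x => ?_, fun y => ?_,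
    fun x y hxy => ?_⟩
  · simp_rw [PiLp.norm_sq_eq_of_L2]
    rw [Finset.sum_comm]
    exact Finset.sum_le_sum fun e _ => hu e x
  · simp_rw [PiLp.norm_sq_eq_of_L2]
    rw [Finset.sum_comm]
    exact Finset.sum_le_sum fun e _ => hv e y
  · simp_rw [PiLp.inner_apply]
    rw [Finset.sum_comm]
    exact Finset.sum_congr rfl fun e _ => hk e x y hxy

lemma Gam.add {R : (ι → Bool) → (ι → Bool) → Prop} {K K' : (ι → Bool) → (ι → Bool) → ℝ}
    {c c' : ℝ} (h : Gam R K c) (h' : Gam R K' c') :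
    Gam R (fun x y => K x y + K' x y) (c + c') := by
  have h1 : ∀ e : Bool, Gam R (if e then K else K') (if e then c else c') := by
    intro e; cases e
    · simpa using h'
    · simpa using h
  have h2 := Gam.sum h1
  refine (h2.congr fun x y _ => ?_).le (le_of_eq ?_)
  · simp
  · simp

/-- Multiplication by a `γ_2` kernel. -/
lemma Gam.mul {R : (ι → Bool) → (ι → Bool) → Prop} {M K : (ι → Bool) → (ι → Bool) → ℝ}
    {m c : ℝ} (hm : G2 R M m) (h : Gam R K c) :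
    Gam R (fun x y => M x y * K x y) (m * c) := by
  have hc := h.nonneg
  obtain ⟨H, i1, i2, u, v, hu, hv, hk⟩ := h
  obtain ⟨H', i1', i2', a, b, ha, hb, hM⟩ := hm
  refine ⟨H' ⊗[ℝ] H, inferInstance, inferInstance, fun x i => a x ⊗ₜ[ℝ] u x i,
    fun y i => b y ⊗ₜ[ℝ] v y i, fun x => ?_, fun y => ?_, fun x y hxy => ?_⟩
  · simp_rw [TensorProduct.norm_tmul, mul_pow]
    rw [← Finset.mul_sum]
    have := Finset.sum_nonneg (s := Finset.univ) fun i (_ : i ∈ Finset.univ) => sq_nonneg ‖u x i‖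
    exact mul_le_mul (ha x) (hu x) this (le_trans (sq_nonneg _) (ha x))
  · simp_rw [TensorProduct.norm_tmul, mul_pow]
    rw [← Finset.mul_sum]
    have := Finset.sum_nonneg (s := Finset.univ) fun i (_ : i ∈ Finset.univ) => sq_nonneg ‖v y i‖
    exact mul_le_mul (hb y) (hv y) this (le_trans (sq_nonneg _) (hb y))
  · simp_rw [TensorProduct.inner_tmul]
    rw [← Finset.mul_sum, hM x y hxy, hk x y hxy]

end Pool.Agent.H69.AC
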