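import Pool.Agent.H69.AC.Gam

/-!
# Children: pull-back, gates, linear average; location and the step
-/

set_option linter.unusedSectionVars false

namespace Pool.Agent.H69.AC

open Finset
open scoped InnerProductSpace

variable {ι κ : Type} [Fintype ι] [Fintype κ]

/-- The left child input. -/
def lf (x : ι ⊕ κ → Bool) : ι → Bool := fun k => x (Sum.inl k)

/-- The right child input. -/
def rt (x : ι ⊕ κ → Bool) : κ → Bool := fun k => x (Sum.inr k)

lemma Gam.inl {R : (ι → Bool) → (ι → Bool) → Prop} {K : (ι → Bool) → (ι → Bool) → ℝ} {c : ℝ}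
    (h : Gam R K c) :
    Gam (ι := ι ⊕ κ) (fun x y => R (lf x) (lf y)) (fun x y => K (lf x) (lf y)) c := by
  obtain ⟨H, i1, i2, u, v, hu, hv, hk⟩ := h
  refine ⟨H, i1, i2, fun x k => k.elim (fun k => u (lf x) k) (fun _ => 0),
    fun y k => k.elim (fun k => v (lf y) k) (fun _ => 0),
    fun x => ?_, fun y => ?_, fun x y hxy => ?_⟩
  · simpa [Fintype.sum_sum_type] using hu (lf x)
  · simpa [Fintype.sum_sum_type] using hv (lf y)
  · have := hk (lf x) (lf y) hxy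
    rw [sum_ne] at this ⊢
    simp only [Fintype.sum_sum_type, Sum.elim_inl, Sum.elim_inr, inner_zero_right, ite_self,
      Finset.sum_const_zero, add_zero]
    exact this

lemma Gam.inr {R : (κ → Bool) → (κ → Bool) → Prop} {K : (κ → Bool) → (κ → Bool) → ℝ} {c : ℝ}
    (h : Gam R K c) :
    Gam (ι := ι ⊕ κ) (fun x y => R (rt x) (rt y)) (fun x y => K (rt x) (rt y)) c := by
  obtain ⟨H, i1, i2, u, v, hu, hv, hk⟩ := h
  refine ⟨H, i1, i2, fun x k => k.elim (fun _ => 0) (fun k => u (rt x) k),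
    fun y k => k.elim (fun _ => 0) (fun k => v (rt y) k),
    fun x => ?_, fun y => ?_, fun x y hxy => ?_⟩
  · simpa [Fintype.sum_sum_type] using hu (rt x)
  · simpa [Fintype.sum_sum_type] using hv (rt y)
  · have := hk (rt x) (rt y) hxy
    rw [sum_ne] at this ⊢
    simp only [Fintype.sum_sum_type, Sum.elim_inl, Sum.elim_inr, inner_zero_right, ite_self,
      Finset.sum_const_zero, zero_add]
    exact this

/-- Linear combination of the two children: kernels add up, costs add. -/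
lemma Gam.avg {R : (ι → Bool) → (ι → Bool) → Prop} {K : (ι → Bool) → (ι → Bool) → ℝ}
    {R' : (κ → Bool) → (κ → Bool) → Prop} {K' : (κ → Bool) → (κ → Bool) → ℝ} {c c' : ℝ}
    (h : Gam R K c) (h' : Gam R' K' c') :
    Gam (ι := ι ⊕ κ) (fun x y => R (lf x) (lf y) ∧ R' (rt x) (rt y))
      (fun x y => K (lf x) (lf y) + K' (rt x) (rt y)) (c + c') :=
  (h.inl.mono le_rfl (fun _ _ h => h.1) (fun _ _ _ => rfl)).add
    (h'.inr.mono le_rfl (fun _ _ h => h.2) (fun _ _ _ => rfl))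

lemma Adv.mono {A B A' B' : (ι → Bool) → Prop} {c c' : ℝ} (h : Adv A B c) (hc : c ≤ c')
    (hA : ∀ x, A' x → A x) (hB : ∀ x, B' x → B x) : Adv A' B' c' :=
  Gam.mono h hc (fun x y h => ⟨hA x h.1, hB y h.2⟩) fun _ _ _ => rfl

lemma Adv.nonneg {A B : (ι → Bool) → Prop} {c : ℝ} (h : Adv A B c) : 0 ≤ c := Gam.nonneg h

lemma Adv.swap {A B : (ι → Bool) → Prop} {c : ℝ} (h : Adv A B c) : Adv B A c :=
  (Gam.swap h).mono le_rfl (fun _ _ h => ⟨h.2, h.1⟩) fun _ _ _ => rfl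

lemma Adv.of_not {A B : (ι → Bool) → Prop} {c : ℝ} (hc : 0 ≤ c)
    (h : ∀ x y, A x → B y → False) : Adv A B c :=
  (Gam.zero (fun _ _ => False)).mono hc (fun x y hxy => h x y hxy.1 hxy.2)
    (fun x y hxy => (h x y hxy.1 hxy.2).elim)

lemma Adv.pos {A B : (ι → Bool) → Prop} {c : ℝ} (h : Adv A B c) {x y : ι → Bool}
    (hx : A x) (hy : B y) : 0 < c := by
  rcases h.nonneg.eq_or_lt with h0 | h0
  · exfalso
    obtain ⟨H, i1, i2, u, v, hu, hv, hk⟩ := h
    have h1 := hu x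
    rw [← h0] at h1
    have h2 : ∀ i, u x i = 0 := by
      intro i
      have h3 := (Finset.sum_eq_zero_iff_of_nonneg (fun i _ => sq_nonneg ‖u x i‖)).1
        (le_antisymm h1 (Finset.sum_nonneg fun i _ => sq_nonneg _)) i (Finset.mem_univ i)
      exact norm_eq_zero.1 ((pow_eq_zero_iff two_ne_zero).1 h3)
    have h4 := hk x y ⟨hx, hy⟩
    simp [h2] at h4
  · exact h0

/-- Rescaled vectors. -/
lemma Adv.scale {A B : (ι → Bool) → Prop} {c C : ℝ} (h : Adv A B c) (hC : 0 < C) :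
    ∃ (H : Type) (_ : NormedAddCommGroup H) (_ : InnerProductSpace ℝ H)
    (u v : (ι → Bool) → ι → H),
    (∀ x, ∑ i, ‖u x i‖ ^ 2 ≤ c ^ 2 / C) ∧ (∀ y, ∑ i, ‖v y i‖ ^ 2 ≤ C) ∧
    ∀ x y, A x → B y → ∑ i with x i ≠ y i, ⟪u x i, v y i⟫_ℝ = 1 := by
  have hc := h.nonneg
  obtain ⟨H, i1, i2, u, v, hu, hv, hk⟩ := h
  rcases hc.eq_or_lt with h0 | h0
  · subst h0
    exact ⟨H, i1, i2, u, v, fun x => (hu x).trans (by positivity), fun y => (hv y).trans hC.le,
      fun x y hx hy => hk x y ⟨hx, hy⟩⟩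
  · refine ⟨H, i1, i2, fun x i => Real.sqrt (c / C) • u x i, fun y i => Real.sqrt (C / c) • v y i,
      fun x => ?_, fun y => ?_, fun x y hx hy => ?_⟩
    · simp_rw [norm_smul, mul_pow, Real.norm_eq_abs, sq_abs, ← Finset.mul_sum,
        Real.sq_sqrt (show (0:ℝ) ≤ c / C by positivity)]
      calc c / C * ∑ i, ‖u x i‖ ^ 2 ≤ c / C * c :=
            mul_le_mul_of_nonneg_left (hu x) (by positivity)
        _ = c ^ 2 / C := by ring
    · simp_rw [norm_smul, mul_pow, Real.norm_eq_abs, sq_abs, ← Finset.mul_sum,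
        Real.sq_sqrt (show (0:ℝ) ≤ C / c by positivity)]
      calc C / c * ∑ i, ‖v y i‖ ^ 2 ≤ C / c * c :=
            mul_le_mul_of_nonneg_left (hv y) (by positivity)
        _ = C := by field_simp
    · have hk' := hk x y ⟨hx, hy⟩
      beta_reduce at hk'
      rw [← hk']
      refine Finset.sum_congr rfl fun i _ => ?_
      rw [inner_smul_left, inner_smul_right, ← mul_assoc]
      simp only [conj_trivial]
      rw [← Real.sqrt_mul (by positivity)]
      have : c / C * (C / c) = 1 := by field_simp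
      rw [this, Real.sqrt_one, one_mul]

/-- **AND gate** (g3). -/
lemma Adv.and_gate {A₁ B₁ : (ι → Bool) → Prop} {A₂ B₂ : (κ → Bool) → Prop} {c₁ c₂ : ℝ}
    (h₁ : Adv A₁ B₁ c₁) (h₂ : Adv A₂ B₂ c₂) {A B : (ι ⊕ κ → Bool) → Prop}
    (hA : ∀ x, A x → A₁ (lf x) ∧ A₂ (rt x)) (hB : ∀ y, B y → B₁ (lf y) ∨ B₂ (rt y)) :
    Adv A B (Real.sqrt (c₁ ^ 2 + c₂ ^ 2)) := by
  classical
  by_cases hno : ∀ x y, A x → B y → False
  · exact Adv.of_not (Real.sqrt_nonneg _) hno
  push Not at hno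
  obtain ⟨x₀, y₀, hx₀, hy₀, -⟩ := hno
  set C := Real.sqrt (c₁ ^ 2 + c₂ ^ 2) with hC
  have hC2 : C ^ 2 = c₁ ^ 2 + c₂ ^ 2 := Real.sq_sqrt (by positivity)
  have hCpos : 0 < C := by
    rw [hC]
    apply Real.sqrt_pos.2
    rcases hB y₀ hy₀ with h | h
    · have := h₁.pos (hA x₀ hx₀).1 h; positivity
    · have := h₂.pos (hA x₀ hx₀).2 h; positivity
  obtain ⟨H₁, i1, i2, u₁, v₁, hu₁, hv₁, hk₁⟩ := h₁.scale hCpos
  obtain ⟨H₂, j1, j2, u₂, v₂, hu₂, hv₂, hk₂⟩ := h₂.scale hCpos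
  refine ⟨WithLp 2 (H₁ × H₂), inferInstance, inferInstance,
    fun x k => WithLp.toLp 2 (k.elim (fun k => (u₁ (lf x) k, (0 : H₂)))
      (fun k => ((0 : H₁), u₂ (rt x) k))),
    fun y k => WithLp.toLp 2 (k.elim (fun k => (if B₁ (lf y) then v₁ (lf y) k else 0, (0 : H₂)))
      (fun k => ((0 : H₁), if B₁ (lf y) then 0 else v₂ (rt y) k))),
    fun x => ?_, fun y => ?_, fun x y hxy => ?_⟩
  · simp only [Fintype.sum_sum_type, Sum.elim_inl, Sum.elim_inr, WithLp.prod_norm_sq_eq_of_L2,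
      norm_zero]
    have h1 := hu₁ (lf x)
    have h2 := hu₂ (rt x)
    have h3 : c₁ ^ 2 / C + c₂ ^ 2 / C = C := by
      rw [← add_div, ← hC2]; field_simp
    simp
    linarith
  · simp only [Fintype.sum_sum_type, Sum.elim_inl, Sum.elim_inr, WithLp.prod_norm_sq_eq_of_L2,
      norm_zero]
    have h1 := hv₁ (lf y)
    have h2 := hv₂ (rt y)
    by_cases hy1 : B₁ (lf y)
    · simpa [hy1] using h1
    · simpa [hy1] using h2
  · rw [sum_ne]
    simp only [Fintype.sum_sum_type, Sum.elim_inl, Sum.elim_inr, WithLp.prod_inner_apply,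
      inner_zero_right, add_zero, zero_add]
    by_cases hy1 : B₁ (lf y)
    · have h1 := hk₁ (lf x) (lf y) (hA x hxy.1).1 hy1
      rw [sum_ne] at h1
      simp only [hy1, if_true, inner_zero_right, ite_self, Finset.sum_const_zero, add_zero]
      exact h1
    · have h1 := hk₂ (rt x) (rt y) (hA x hxy.1).2 ((hB y hxy.2).resolve_left hy1)
      rw [sum_ne] at h1
      simp only [hy1, if_false, inner_zero_right, ite_self, Finset.sum_const_zero, zero_add]
      exact h1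

/-- **OR gate** (g3). -/
lemma Adv.or_gate {A₁ B₁ : (ι → Bool) → Prop} {A₂ B₂ : (κ → Bool) → Prop} {c₁ c₂ : ℝ}
    (h₁ : Adv A₁ B₁ c₁) (h₂ : Adv A₂ B₂ c₂) {A B : (ι ⊕ κ → Bool) → Prop}
    (hA : ∀ x, A x → A₁ (lf x) ∨ A₂ (rt x)) (hB : ∀ y, B y → B₁ (lf y) ∧ B₂ (rt y)) :
    Adv A B (Real.sqrt (c₁ ^ 2 + c₂ ^ 2)) :=
  (Adv.and_gate h₁.swap h₂.swap hB hA).swap

end Pool.Agent.H69.AC
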