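import Mathlib

set_option linter.unusedSectionVars false

namespace Pool.Agent.H69.KCT

open Finset

variable {i j : Type} [Fintype i] [Fintype j]

/-- Cost of a kernel. -/
def KC {i : Type} [Fintype i] (A B : Set (i → Bool)) (K : (i → Bool) → (i → Bool) → ℝ) (c : ℝ) :
    Prop :=
  ∃ (E : Type) (_ : Fintype E) (u v : (i → Bool) → i → E → ℝ),
    (∀ x ∈ A, ∑ k, ∑ e, (u x k e) ^ 2 ≤ c) ∧ (∀ y ∈ B, ∑ k, ∑ e, (v y k e) ^ 2 ≤ c) ∧
    ∀ x ∈ A, ∀ y ∈ B, ∑ k, ∑ e, (if x k = y k then 0 else u x k e * v y k e) = K x y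

variable {A B A' B' : Set (i → Bool)} {K K' : (i → Bool) → (i → Bool) → ℝ} {c c' : ℝ}

lemma KC.mono (h : KC A B K c) (hc : c ≤ c') (hA : A' ⊆ A) (hB : B' ⊆ B)
    (hK : ∀ x ∈ A', ∀ y ∈ B', K' x y = K x y) : KC A' B' K' c' := by
  obtain ⟨E, hE, u, v, hu, hv, hk⟩ := h
  exact ⟨E, hE, u, v, fun x hx => (hu x (hA hx)).trans hc, fun y hy => (hv y (hB hy)).trans hc,
    fun x hx y hy => by rw [hK x hx y hy]; exact hk x (hA hx) y (hB hy)⟩

lemma KC.zero : KC A B (fun _ _ => 0) 0 :=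
  ⟨Unit, inferInstance, fun _ _ _ => 0, fun _ _ _ => 0, fun _ _ => by simp, fun _ _ => by simp,
    fun _ _ _ _ => by simp⟩

lemma KC.swap (h : KC A B K c) : KC B A (fun x y => K y x) c := by
  obtain ⟨E, hE, u, v, hu, hv, hk⟩ := h
  refine ⟨E, hE, v, u, hv, hu, fun x hx y hy => ?_⟩
  beta_reduce
  rw [← hk y hy x hx]
  refine Finset.sum_congr rfl fun k _ => Finset.sum_congr rfl fun e _ => ?_
  simp only [eq_comm (a := x k), mul_comm]

/-- Labels (g1), cost `c e` per label. -/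
lemma KC.mix {L : Type} [Fintype L] {K : L → (i → Bool) → (i → Bool) → ℝ}
    {p q : (i → Bool) → L → ℝ} {c : ℝ} (hc : 0 ≤ c)
    (hp : ∀ x ∈ A, ∑ l, p x l ^ 2 ≤ 1) (hq : ∀ y ∈ B, ∑ l, q y l ^ 2 ≤ 1)
    (h : ∀ l, KC {x | x ∈ A ∧ p x l ≠ 0} {y | y ∈ B ∧ q y l ≠ 0} (K l) c) :
    KC A B (fun x y => ∑ l, p x l * q y l * K l x y) c := by
  choose E hE u v hu hv hk using h
  refine ⟨Σ l, E l, inferInstance, fun x k e => p x e.1 * u e.1 x k e.2,
    fun y k e => q y e.1 * v e.1 y k e.2, fun x hx => ?_, fun y hy => ?_, fun x hx y hy => ?_⟩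
  · calc ∑ k, ∑ e : Σ l, E l, (p x e.1 * u e.1 x k e.2) ^ 2
        = ∑ l, p x l ^ 2 * ∑ k, ∑ e, (u l x k e) ^ 2 := by
          simp_rw [Fintype.sum_sigma, mul_pow, Finset.mul_sum]
          rw [Finset.sum_comm]
      _ ≤ ∑ l, p x l ^ 2 * c := by
          refine Finset.sum_le_sum fun l _ => ?_
          by_cases h0 : p x l = 0
          · simp [h0]
          · exact mul_le_mul_of_nonneg_left (hu l x ⟨hx, h0⟩) (sq_nonneg _)
      _ = (∑ l, p x l ^ 2) * c := by rw [Finset.sum_mul]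
      _ ≤ 1 * c := mul_le_mul_of_nonneg_right (hp x hx) hc
      _ = c := one_mul c
  · calc ∑ k, ∑ e : Σ l, E l, (q y e.1 * v e.1 y k e.2) ^ 2
        = ∑ l, q y l ^ 2 * ∑ k, ∑ e, (v l y k e) ^ 2 := by
          simp_rw [Fintype.sum_sigma, mul_pow, Finset.mul_sum]
          rw [Finset.sum_comm]
      _ ≤ ∑ l, q y l ^ 2 * c := by
          refine Finset.sum_le_sum fun l _ => ?_
          by_cases h0 : q y l = 0
          · simp [h0]
          · exact mul_le_mul_of_nonneg_left (hv l y ⟨hy, h0⟩) (sq_nonneg _)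
      _ = (∑ l, q y l ^ 2) * c := by rw [Finset.sum_mul]
      _ ≤ 1 * c := mul_le_mul_of_nonneg_right (hq y hy) hc
      _ = c := one_mul c
  · simp_rw [Fintype.sum_sigma]
    rw [Finset.sum_comm]
    refine Finset.sum_congr rfl fun l _ => ?_
    by_cases h0 : p x l ≠ 0 ∧ q y l ≠ 0
    · rw [← hk l x ⟨hx, h0.1⟩ y ⟨hy, h0.2⟩, Finset.mul_sum]
      refine Finset.sum_congr rfl fun k _ => ?_
      rw [Finset.mul_sum]
      refine Finset.sum_congr rfl fun e _ => ?_
      split_ifs <;> ring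
    · rw [not_and_or, not_not, not_not] at h0
      rcases h0 with h0 | h0 <;> simp [h0]

/-- Sums of kernels. -/
lemma KC.sum {L : Type} [Fintype L] {K : L → (i → Bool) → (i → Bool) → ℝ} {c : L → ℝ}
    (h : ∀ l, KC A B (K l) (c l)) : KC A B (fun x y => ∑ l, K l x y) (∑ l, c l) := by
  choose E hE u v hu hv hk using h
  refine ⟨Σ l, E l, inferInstance, fun x k e => u e.1 x k e.2,
    fun y k e => v e.1 y k e.2, fun x hx => ?_, fun y hy => ?_, fun x hx y hy => ?_⟩
  · simp_rw [Fintype.sum_sigma]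
    rw [Finset.sum_comm]
    exact Finset.sum_le_sum fun l _ => hu l x hx
  · simp_rw [Fintype.sum_sigma]
    rw [Finset.sum_comm]
    exact Finset.sum_le_sum fun l _ => hv l y hy
  · simp_rw [Fintype.sum_sigma]
    rw [Finset.sum_comm]
    exact Finset.sum_congr rfl fun l _ => hk l x hx y hy

lemma KC.add (h : KC A B K c) (h' : KC A B K' c') :
    KC A B (fun x y => K x y + K' x y) (c + c') := by
  have h1 : ∀ l : Bool, KC A B (if l then K else K') (if l then c else c') := by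
    intro l; cases l
    · simpa using h'
    · simpa using h
  have h2 := KC.sum h1
  refine h2.mono (le_of_eq ?_) subset_rfl subset_rfl fun x _ y _ => ?_
  · simp
  · simp

lemma KC.nonneg (h : KC A B K c) (hA : A.Nonempty) : 0 ≤ c := by
  obtain ⟨E, hE, u, v, hu, -, -⟩ := h
  obtain ⟨x, hx⟩ := hA
  exact le_trans (Finset.sum_nonneg fun k _ => Finset.sum_nonneg fun e _ => sq_nonneg _) (hu x hx)

/-- Multiplication by a `γ_2` kernel with representation `M x y = ∑ f, a x f * b y f`. -/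
lemma KC.mul {F : Type} [Fintype F] {a b : (i → Bool) → F → ℝ} {m : ℝ} (hm : 0 ≤ m)
    (h : KC A B K c) (ha : ∀ x ∈ A, ∑ f, a x f ^ 2 ≤ m) (hb : ∀ y ∈ B, ∑ f, b y f ^ 2 ≤ m) :
    KC A B (fun x y => (∑ f, a x f * b y f) * K x y) (m * c) := by
  obtain ⟨E, hE, u, v, hu, hv, hk⟩ := h
  refine ⟨F × E, inferInstance, fun x k e => a x e.1 * u x k e.2,
    fun y k e => b y e.1 * v y k e.2, fun x hx => ?_, fun y hy => ?_, fun x hx y hy => ?_⟩
  · have h1 : ∑ k, ∑ e : F × E, (a x e.1 * u x k e.2) ^ 2 =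
        (∑ f, a x f ^ 2) * ∑ k, ∑ e, (u x k e) ^ 2 := by
      simp_rw [Fintype.sum_prod_type, mul_pow, Finset.sum_mul_sum, ← Finset.mul_sum]
      rw [Finset.sum_comm]
      exact Finset.sum_congr rfl fun f _ => (Finset.mul_sum _ _ _).symm
    rw [h1]
    exact mul_le_mul (ha x hx) (hu x hx)
      (Finset.sum_nonneg fun k _ => Finset.sum_nonneg fun e _ => sq_nonneg _) hm
  · have h1 : ∑ k, ∑ e : F × E, (b y e.1 * v y k e.2) ^ 2 =
        (∑ f, b y f ^ 2) * ∑ k, ∑ e, (v y k e) ^ 2 := by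
      simp_rw [Fintype.sum_prod_type, mul_pow, Finset.sum_mul_sum, ← Finset.mul_sum]
      rw [Finset.sum_comm]
      exact Finset.sum_congr rfl fun f _ => (Finset.mul_sum _ _ _).symm
    rw [h1]
    exact mul_le_mul (hb y hy) (hv y hy)
      (Finset.sum_nonneg fun k _ => Finset.sum_nonneg fun e _ => sq_nonneg _) hm
  · beta_reduce
    rw [← hk x hx y hy]
    simp_rw [Fintype.sum_prod_type, Finset.sum_mul, Finset.mul_sum]
    rw [Finset.sum_comm]
    refine Finset.sum_congr rfl fun f _ => Finset.sum_congr rfl fun k _ =>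
      Finset.sum_congr rfl fun e _ => ?_
    split_ifs <;> ring

lemma KC.smul (h : KC A B K c) (r : ℝ) : KC A B (fun x y => r * K x y) (|r| * c) := by
  have h1 := KC.mul (F := Unit) (a := fun _ _ => Real.sqrt |r| * SignType.sign r)
    (b := fun _ _ => Real.sqrt |r|) (abs_nonneg r) h (fun x _ => ?_) (fun y _ => ?_)
  · refine h1.mono le_rfl subset_rfl subset_rfl fun x _ y _ => ?_
    have hs : Real.sqrt |r| ^ 2 = |r| := Real.sq_sqrt (abs_nonneg r)
    have h4 : Real.sqrt |r| * (SignType.sign r : ℝ) * Real.sqrt |r| = r := by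
      calc Real.sqrt |r| * (SignType.sign r : ℝ) * Real.sqrt |r| =
          Real.sqrt |r| ^ 2 * (SignType.sign r : ℝ) := by ring
        _ = |r| * (SignType.sign r : ℝ) := by rw [hs]
        _ = r := by rw [mul_comm]; exact sign_mul_abs r
    simp [h4]
  · have hs : Real.sqrt |r| ^ 2 = |r| := Real.sq_sqrt (abs_nonneg r)
    have h2 : ((SignType.sign r : SignType) : ℝ) ^ 2 ≤ 1 := by
      rcases lt_trichotomy r 0 with h | h | h
      · simp [sign_neg h]
      · simp [h]
      · simp [sign_pos h]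
    have h3 := abs_nonneg r
    simp only [Finset.univ_unique, Finset.sum_singleton, mul_pow, hs]
    nlinarith
  · have hs : Real.sqrt |r| ^ 2 = |r| := Real.sq_sqrt (abs_nonneg r)
    simp [hs]

/-- Pull-back to the left child. -/
lemma KC.inl (h : KC A B K c) :
    KC {x : i ⊕ j → Bool | (fun k => x (Sum.inl k)) ∈ A} {y | (fun k => y (Sum.inl k)) ∈ B}
      (fun x y => K (fun k => x (Sum.inl k)) (fun k => y (Sum.inl k))) c := by
  obtain ⟨E, hE, u, v, hu, hv, hk⟩ := h
  refine ⟨E, hE, fun x k e => k.elim (fun k => u (fun k => x (Sum.inl k)) k e) (fun _ => 0),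
    fun y k e => k.elim (fun k => v (fun k => y (Sum.inl k)) k e) (fun _ => 0),
    fun x hx => ?_, fun y hy => ?_, fun x hx y hy => ?_⟩
  · simpa [Fintype.sum_sum_type] using hu _ hx
  · simpa [Fintype.sum_sum_type] using hv _ hy
  · simpa [Fintype.sum_sum_type] using hk _ hx _ hy

/-- Pull-back to the right child. -/
lemma KC.inr (h : KC A B K c) :
    KC {x : j ⊕ i → Bool | (fun k => x (Sum.inr k)) ∈ A} {y | (fun k => y (Sum.inr k)) ∈ B}
      (fun x y => K (fun k => x (Sum.inr k)) (fun k => y (Sum.inr k))) c := by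
  obtain ⟨E, hE, u, v, hu, hv, hk⟩ := h
  refine ⟨E, hE, fun x k e => k.elim (fun _ => 0) (fun k => u (fun k => x (Sum.inr k)) k e),
    fun y k e => k.elim (fun _ => 0) (fun k => v (fun k => y (Sum.inr k)) k e),
    fun x hx => ?_, fun y hy => ?_, fun x hx y hy => ?_⟩
  · simpa [Fintype.sum_sum_type] using hu _ hx
  · simpa [Fintype.sum_sum_type] using hv _ hy
  · simpa [Fintype.sum_sum_type] using hk _ hx _ hy

/-- **AND gate** (g3). -/
lemma KC.and_gate {A₁ B₁ : Set (i → Bool)} {A₂ B₂ : Set (j → Bool)} {c₁ c₂ : ℝ}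
    (hc₁ : 0 ≤ c₁) (hc₂ : 0 ≤ c₂)
    (h₁ : KC A₁ B₁ (fun _ _ => 1) c₁) (h₂ : KC A₂ B₂ (fun _ _ => 1) c₂)
    {A B : Set (i ⊕ j → Bool)}
    (hA : ∀ x ∈ A, (fun k => x (Sum.inl k)) ∈ A₁ ∧ (fun k => x (Sum.inr k)) ∈ A₂)
    (hB : ∀ y ∈ B, (fun k => y (Sum.inl k)) ∈ B₁ ∨ (fun k => y (Sum.inr k)) ∈ B₂) :
    KC A B (fun _ _ => 1) (Real.sqrt (c₁ ^ 2 + c₂ ^ 2)) := by
  classical
  obtain ⟨E₁, hE₁, u₁, v₁, hu₁, hv₁, hk₁⟩ := h₁
  obtain ⟨E₂, hE₂, u₂, v₂, hu₂, hv₂, hk₂⟩ := h₂
  set C := Real.sqrt (c₁ ^ 2 + c₂ ^ 2) with hC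
  have hC2 : C ^ 2 = c₁ ^ 2 + c₂ ^ 2 := Real.sq_sqrt (by positivity)
  by_cases hC0 : C = 0
  · have h1 : c₁ = 0 := by nlinarith
    have h2 : c₂ = 0 := by nlinarith
    -- a cost zero kernel vanishes, so there are no pairs
    have hno : ∀ x ∈ A, ∀ y ∈ B, False := by
      intro x hx y hy
      rcases hB y hy with h | h
      · have h3 := hu₁ _ (hA x hx).1
        have h4 := hk₁ _ (hA x hx).1 _ h
        rw [h1] at h3
        have h5 : ∀ k e, u₁ (fun k => x (Sum.inl k)) k e = 0 := by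
          intro k e
          have h6 := (Finset.sum_eq_zero_iff_of_nonneg (fun k _ => Finset.sum_nonneg
            fun e _ => sq_nonneg (u₁ (fun k => x (Sum.inl k)) k e))).1
            (le_antisymm h3 (Finset.sum_nonneg fun k _ => Finset.sum_nonneg
            fun e _ => sq_nonneg _)) k (Finset.mem_univ k)
          have h7 := (Finset.sum_eq_zero_iff_of_nonneg (fun e _ =>
            sq_nonneg (u₁ (fun k => x (Sum.inl k)) k e))).1 h6 e (Finset.mem_univ e)
          exact pow_eq_zero_iff (two_ne_zero) |>.1 h7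
        simp [h5] at h4
      · have h3 := hu₂ _ (hA x hx).2
        have h4 := hk₂ _ (hA x hx).2 _ h
        rw [h2] at h3
        have h5 : ∀ k e, u₂ (fun k => x (Sum.inr k)) k e = 0 := by
          intro k e
          have h6 := (Finset.sum_eq_zero_iff_of_nonneg (fun k _ => Finset.sum_nonneg
            fun e _ => sq_nonneg (u₂ (fun k => x (Sum.inr k)) k e))).1
            (le_antisymm h3 (Finset.sum_nonneg fun k _ => Finset.sum_nonneg
            fun e _ => sq_nonneg _)) k (Finset.mem_univ k)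
          have h7 := (Finset.sum_eq_zero_iff_of_nonneg (fun e _ =>
            sq_nonneg (u₂ (fun k => x (Sum.inr k)) k e))).1 h6 e (Finset.mem_univ e)
          exact pow_eq_zero_iff (two_ne_zero) |>.1 h7
        simp [h5] at h4
    exact ⟨Unit, inferInstance, fun _ _ _ => 0, fun _ _ _ => 0, fun _ _ => by simp [hC0],
      fun _ _ => by simp [hC0], fun x hx y hy => (hno x hx y hy).elim⟩
  have hCpos : 0 < C := lt_of_le_of_ne (Real.sqrt_nonneg _) (Ne.symm hC0)
  -- weights `sqrt (c / C)` and its inverse; if `c = 0` the child has no pairs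
  have key : ∀ {k : Type} [Fintype k] {A' B' : Set (k → Bool)} {c : ℝ} {F : Type} [Fintype F]
      {u v : (k → Bool) → k → F → ℝ}, 0 ≤ c →
      (∀ x ∈ A', ∑ k, ∑ e, (u x k e) ^ 2 ≤ c) → (∀ y ∈ B', ∑ k, ∑ e, (v y k e) ^ 2 ≤ c) →
      ∃ α β : ℝ, α * β = 1 ∧ (∀ x ∈ A', ∑ k, ∑ e, (α * u x k e) ^ 2 ≤ c ^ 2 / C) ∧
        (∀ y ∈ B', ∑ k, ∑ e, (β * v y k e) ^ 2 ≤ C) := by
    intro k _ A' B' c F _ u v hc hu hv
    rcases hc.eq_or_lt with h0 | h0
    · refine ⟨1, 1, by norm_num, fun x hx => ?_, fun y hy => ?_⟩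
      · simp only [one_mul]
        refine (hu x hx).trans ?_
        rw [← h0]; positivity
      · simp only [one_mul]
        exact (hv y hy).trans (by rw [← h0]; exact hCpos.le)
    · refine ⟨Real.sqrt (c / C), Real.sqrt (C / c), ?_, fun x hx => ?_, fun y hy => ?_⟩
      · rw [← Real.sqrt_mul (by positivity)]
        have : c / C * (C / c) = 1 := by field_simp
        rw [this, Real.sqrt_one]
      · simp_rw [mul_pow, ← Finset.mul_sum, Real.sq_sqrt (show (0:ℝ) ≤ c / C by positivity)]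
        calc c / C * ∑ k, ∑ e, (u x k e) ^ 2 ≤ c / C * c :=
              mul_le_mul_of_nonneg_left (hu x hx) (by positivity)
          _ = c ^ 2 / C := by ring
      · simp_rw [mul_pow, ← Finset.mul_sum, Real.sq_sqrt (show (0:ℝ) ≤ C / c by positivity)]
        calc C / c * ∑ k, ∑ e, (v y k e) ^ 2 ≤ C / c * c :=
              mul_le_mul_of_nonneg_left (hv y hy) (by positivity)
          _ = C := by field_simp
  obtain ⟨α₁, β₁, hab₁, hα₁, hβ₁⟩ := key (A' := A₁) (B' := B₁) hc₁ hu₁ hv₁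
  obtain ⟨α₂, β₂, hab₂, hα₂, hβ₂⟩ := key (A' := A₂) (B' := B₂) hc₂ hu₂ hv₂
  refine ⟨E₁ ⊕ E₂, inferInstance,
    fun x k e => k.elim
      (fun k => e.elim (fun e => α₁ * u₁ (fun k => x (Sum.inl k)) k e) (fun _ => 0))
      (fun k => e.elim (fun _ => 0) (fun e => α₂ * u₂ (fun k => x (Sum.inr k)) k e)),
    fun y k e => k.elim
      (fun k => e.elim (fun e => if (fun k => y (Sum.inl k)) ∈ B₁ then
        β₁ * v₁ (fun k => y (Sum.inl k)) k e else 0) (fun _ => 0))
      (fun k => e.elim (fun _ => 0) (fun e => if (fun k => y (Sum.inl k)) ∈ B₁ then 0 else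
        β₂ * v₂ (fun k => y (Sum.inr k)) k e)), fun x hx => ?_, fun y hy => ?_,
    fun x hx y hy => ?_⟩
  · simp only [Fintype.sum_sum_type, Sum.elim_inl, Sum.elim_inr]
    have h1 := hα₁ _ (hA x hx).1
    have h2 := hα₂ _ (hA x hx).2
    have h3 : c₁ ^ 2 / C + c₂ ^ 2 / C = C := by
      rw [← add_div, ← hC2]; field_simp
    simp only [ne_eq, OfNat.ofNat_ne_zero, not_false_eq_true, zero_pow, Finset.sum_const_zero,
      add_zero, zero_add]
    linarith
  · simp only [Fintype.sum_sum_type, Sum.elim_inl, Sum.elim_inr]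
    by_cases hy1 : (fun k => y (Sum.inl k)) ∈ B₁
    · simp only [hy1, if_true, ne_eq, OfNat.ofNat_ne_zero, not_false_eq_true, zero_pow,
        Finset.sum_const_zero, add_zero]
      exact hβ₁ _ hy1
    · have hy2 := (hB y hy).resolve_left hy1
      simp only [hy1, if_false, ne_eq, OfNat.ofNat_ne_zero, not_false_eq_true, zero_pow,
        Finset.sum_const_zero, zero_add]
      exact hβ₂ _ hy2
  · simp only [Fintype.sum_sum_type, Sum.elim_inl, Sum.elim_inr]
    by_cases hy1 : (fun k => y (Sum.inl k)) ∈ B₁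
    · have h1 := hk₁ _ (hA x hx).1 _ hy1
      beta_reduce at h1
      simp only [hy1, if_true, mul_zero, ite_self, Finset.sum_const_zero, add_zero]
      rw [← h1]
      refine Finset.sum_congr rfl fun k _ => Finset.sum_congr rfl fun e _ => ?_
      split_ifs
      · rfl
      · linear_combination (u₁ (fun k => x (Sum.inl k)) k e *
          v₁ (fun k => y (Sum.inl k)) k e) * hab₁
    · have hy2 := (hB y hy).resolve_left hy1
      have h1 := hk₂ _ (hA x hx).2 _ hy2
      beta_reduce at h1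
      simp only [hy1, if_false, mul_zero, ite_self, Finset.sum_const_zero, zero_add]
      rw [← h1]
      refine Finset.sum_congr rfl fun k _ => Finset.sum_congr rfl fun e _ => ?_
      split_ifs
      · rfl
      · linear_combination (u₂ (fun k => x (Sum.inr k)) k e *
          v₂ (fun k => y (Sum.inr k)) k e) * hab₂

/-- Linear average of two children: kernels add up on disjoint variables, norms add. -/
lemma KC.avg {K₁ : (i → Bool) → (i → Bool) → ℝ} {K₂ : (j → Bool) → (j → Bool) → ℝ}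
    {A₂ B₂ : Set (j → Bool)} (h₁ : KC A B K₁ c) (h₂ : KC A₂ B₂ K₂ c') :
    KC {x : i ⊕ j → Bool | (fun k => x (Sum.inl k)) ∈ A ∧ (fun k => x (Sum.inr k)) ∈ A₂}
      {y | (fun k => y (Sum.inl k)) ∈ B ∧ (fun k => y (Sum.inr k)) ∈ B₂}
      (fun x y => K₁ (fun k => x (Sum.inl k)) (fun k => y (Sum.inl k)) +
        K₂ (fun k => x (Sum.inr k)) (fun k => y (Sum.inr k))) (c + c') :=
  (h₁.inl.mono le_rfl (fun _ h => h.1) (fun _ h => h.1) (fun _ _ _ _ => rfl)).add
    (h₂.inr.mono le_rfl (fun _ h => h.2) (fun _ h => h.2) (fun _ _ _ _ => rfl))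

end Pool.Agent.H69.KCT
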