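import Pool.Agent.H69.AC.Gate

/-!
# Location, gap tests, and the step of the rounding tree
-/

set_option linter.unusedSectionVars false

namespace Pool.Agent.H69.AC

open Finset
open scoped InnerProductSpace

variable {ι κ : Type} [Fintype ι] [Fintype κ]

/-- `Sep V t c`: all gap-`t` tests of `V` cost at most `c`. -/
def Sep (V : (ι → Bool) → ℤ) (t : ℤ) (c : ℝ) : Prop :=
  ∀ θ : ℤ, Adv (fun x => θ + t ≤ V x) (fun y => V y ≤ θ) c

/-- `Loc V d c`: location of `V` in windows of length `d`, cost `c`. -/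
def Loc (V : (ι → Bool) → ℤ) (d : ℤ) (c : ℝ) : Prop :=
  ∃ (L : Type) (_ : Fintype L) (a : L → ℤ) (φ : (ι → Bool) → L → ℝ),
    (∀ x, ∑ l, φ x l ^ 2 = 1) ∧ (∀ x l, φ x l ≠ 0 → a l ≤ V x ∧ V x ≤ a l + d) ∧
    Gam (fun _ _ => True) (fun x y => 1 - ∑ l, φ x l * φ y l) c

/-- Soft separation (totalisation) of two sets by unit vectors of the plane. -/
def Soft (A B : (ι → Bool) → Prop) (c : ℝ) : Prop :=
  ∃ φ : (ι → Bool) → Bool → ℝ, (∀ x, ∑ b, φ x b ^ 2 = 1) ∧ (∀ x, A x → φ x false = 0) ∧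
    (∀ x, B x → φ x true = 0) ∧
    Gam (fun _ _ => True) (fun x y => 1 - ∑ b, φ x b * φ y b) c

/-- The parent of two copies of a node. -/
def par (g : ℤ) (V : (ι → Bool) → ℤ) (x : ι ⊕ ι → Bool) : ℤ := (V (lf x) + V (rt x)) / (2 * g)

variable {V : (ι → Bool) → ℤ}

lemma Sep.mono_cost {t : ℤ} {c c' : ℝ} (h : Sep V t c) (hc : c ≤ c') : Sep V t c' :=
  fun θ => (h θ).mono hc (fun _ h => h) (fun _ h => h)

lemma Sep.mono_gap {t t' : ℤ} {c : ℝ} (h : Sep V t c) (ht : t ≤ t') : Sep V t' c :=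
  fun θ => (h θ).mono le_rfl (fun x hx => by linarith) (fun _ h => h)

lemma Sep.nonneg {t : ℤ} {c : ℝ} (h : Sep V t c) : 0 ≤ c := (h 0).nonneg

/-- Gaps beyond the range cost nothing. -/
lemma Sep.zero {t P : ℤ} (hV : ∀ x, 0 ≤ V x ∧ V x ≤ P) (ht : P < t) : Sep V t 0 := by
  intro θ
  refine Adv.of_not le_rfl fun x y hx hy => ?_
  have h1 := hV x
  have h2 := hV y
  linarith

lemma Loc.mono_cost {d : ℤ} {c c' : ℝ} (h : Loc V d c) (hc : c ≤ c') : Loc V d c' := by
  obtain ⟨L, hL, a, φ, h1, h2, h3⟩ := h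
  exact ⟨L, hL, a, φ, h1, h2, h3.le hc⟩

lemma Loc.nonneg {d : ℤ} {c : ℝ} (h : Loc V d c) : 0 ≤ c := by
  obtain ⟨L, hL, a, φ, h1, h2, h3⟩ := h
  exact h3.nonneg

/-- The trivial location. -/
lemma Loc.trivial {P : ℤ} (hV : ∀ x, 0 ≤ V x ∧ V x ≤ P) : Loc V P 0 := by
  refine ⟨Unit, inferInstance, fun _ => 0, fun _ _ => 1, fun x => by simp, fun x l _ => ?_, ?_⟩
  · simpa using hV x
  · exact (Gam.zero _).congr fun _ _ _ => by simp

/-- One narrowing step (L1). -/
lemma Loc.narrow {l : ℤ} {c c' : ℝ} (h : Loc V (l + 1) c)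
    (hs : ∀ a : ℤ, Soft (fun x => a + (l + 1) ≤ V x) (fun y => V y ≤ a) c') :
    Loc V l (c + c') := by
  have hc' : 0 ≤ c' := by obtain ⟨φ, -, -, -, h⟩ := hs 0; exact h.nonneg
  obtain ⟨L, hL, a, φ, h1, h2, h3⟩ := h
  choose ψ hψ1 hψA hψB hψK using hs
  refine ⟨L × Bool, inferInstance, fun m => if m.2 then a m.1 + 1 else a m.1,
    fun x m => φ x m.1 * ψ (a m.1) x m.2, fun x => ?_, fun x m hm => ?_, ?_⟩
  · simp_rw [Fintype.sum_prod_type, mul_pow, ← Finset.mul_sum, hψ1, mul_one]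
    exact h1 x
  · obtain ⟨m, b⟩ := m
    have hm1 : φ x m ≠ 0 := left_ne_zero_of_mul hm
    have hm2 : ψ (a m) x b ≠ 0 := right_ne_zero_of_mul hm
    have hw := h2 x m hm1
    cases b with
    | true =>
      have h4 : ¬ V x ≤ a m := fun h => hm2 (hψB (a m) x h)
      simp only [if_true]
      constructor <;> omega
    | false =>
      have h4 : ¬ a m + (l + 1) ≤ V x := fun h => hm2 (hψA (a m) x h)
      simp only [Bool.false_eq_true, if_false]
      constructor <;> omega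
  · have h5 : Gam (fun _ _ => True) (fun x y => ∑ l, φ x l * φ y l *
        (1 - ∑ b, ψ (a l) x b * ψ (a l) y b)) c' := by
      refine Gam.mix hc' (fun x => (h1 x).le) (fun x => (h1 x).le) fun l => ?_
      exact (hψK (a l)).mono le_rfl (fun _ _ _ => True.intro) fun _ _ _ => rfl
    refine (h3.add h5).congr fun x y _ => ?_
    simp_rw [Fintype.sum_prod_type, mul_sub, mul_one, Finset.sum_sub_distrib, Finset.mul_sum]
    have h6 : ∀ l b, φ x l * ψ (a l) x b * (φ y l * ψ (a l) y b) =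
        φ x l * φ y l * (ψ (a l) x b * ψ (a l) y b) := fun l b => by ring
    simp_rw [h6]
    ring

/-- A location in windows of length `d` gives the gap-`d+1` tests. -/
lemma Loc.sep {d : ℤ} {c : ℝ} (h : Loc V d c) : Sep V (d + 1) c := by
  obtain ⟨L, hL, a, φ, h1, h2, h3⟩ := h
  intro θ
  refine h3.mono le_rfl (fun _ _ _ => True.intro) fun x y hxy => ?_
  have h4 : ∑ l, φ x l * φ y l = 0 := by
    refine Finset.sum_eq_zero fun l _ => ?_
    by_contra hne
    have h5 := h2 x l (left_ne_zero_of_mul hne)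
    have h6 := h2 y l (right_ne_zero_of_mul hne)
    have h7 := hxy.1
    have h8 := hxy.2
    omega
  rw [h4, sub_zero]

/-- Product of two locations. -/
lemma Loc.prod {V : (ι → Bool) → ℤ} {W : (κ → Bool) → ℤ} {d : ℤ} {c c' : ℝ}
    (h : Loc V d c) (h' : Loc W d c') :
    ∃ (L : Type) (_ : Fintype L) (a b : L → ℤ) (φ : (ι ⊕ κ → Bool) → L → ℝ),
      (∀ x, ∑ l, φ x l ^ 2 = 1) ∧
      (∀ x l, φ x l ≠ 0 → (a l ≤ V (lf x) ∧ V (lf x) ≤ a l + d)
        ∧ (b l ≤ W (rt x) ∧ W (rt x) ≤ b l + d)) ∧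
      Gam (fun _ _ => True) (fun x y => 1 - ∑ l, φ x l * φ y l) (c + c') := by
  obtain ⟨L, hL, a, φ, h1, h2, h3⟩ := h
  obtain ⟨L', hL', b, ψ, k1, k2, k3⟩ := h'
  refine ⟨L × L', inferInstance, fun m => a m.1, fun m => b m.2,
    fun x m => φ (lf x) m.1 * ψ (rt x) m.2,
    fun x => ?_, fun x m hm => ⟨h2 _ _ (left_ne_zero_of_mul hm), k2 _ _ (right_ne_zero_of_mul hm)⟩,
    ?_⟩
  · simp_rw [Fintype.sum_prod_type, mul_pow, ← Finset.mul_sum, k1, mul_one]
    exact h1 _
  · have h4 := h3.inl (κ := κ)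
    have h5 := k3.inr (ι := ι)
    have h6 : Gam (ι := ι ⊕ κ) (fun _ _ => True) (fun x y => ∑ l, φ (lf x) l * φ (lf y) l *
        (1 - ∑ m, ψ (rt x) m * ψ (rt y) m)) c' := by
      refine Gam.mix k3.nonneg (fun x => (h1 _).le) (fun x => (h1 _).le) fun l => ?_
      exact h5.mono le_rfl (fun _ _ _ => True.intro) fun _ _ _ => rfl
    refine (h4.add h6).congr fun x y _ => ?_
    simp_rw [Fintype.sum_prod_type, mul_sub, mul_one, Finset.sum_sub_distrib, Finset.mul_sum]
    have h7 : ∀ l m, φ (lf x) l * ψ (rt x) m * (φ (lf y) l * ψ (rt y) m) =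
        φ (lf x) l * φ (lf y) l * (ψ (rt x) m * ψ (rt y) m) := fun l m => by ring
    simp_rw [h7]
    ring

/-- (DD): the location of the parent at a normal level. -/
lemma Loc.par {d : ℤ} {c : ℝ} (h : Loc V d c) : Loc (par 1 V) d (2 * c) := by
  obtain ⟨L, hL, a, b, φ, h1, h2, h3⟩ := h.prod h
  refine ⟨L, hL, fun l => (a l + b l) / 2, φ, h1, fun x l hl => ?_, by rw [two_mul]; exact h3⟩
  have h4 := h2 x l hl
  unfold AC.par
  beta_reduce
  constructor <;> omega

/-- (L2): the step. -/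
lemma Sep.par {g d : ℤ} (hg : 1 ≤ g) {c c' : ℝ}
    (hS : Sep V (g * (d - 1) + 1) c) (hL : Loc V (g * (d - 1) + 1) c') :
    Sep (par g V) d (Real.sqrt 2 * c + 2 * c') := by
  intro θ
  have hc := hS.nonneg
  obtain ⟨L, hL, a, b, φ, h1, h2, h3⟩ := hL.prod hL
  set e := g * (d - 1) + 1 with he
  set s0 := 2 * g * θ + 2 * g - 1 with hs0
  have hsq : Real.sqrt (c ^ 2 + c ^ 2) = Real.sqrt 2 * c := by
    rw [show c ^ 2 + c ^ 2 = 2 * c ^ 2 by ring, Real.sqrt_mul (by norm_num), Real.sqrt_sq hc]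
  have hA : ∀ x : ι ⊕ ι → Bool, θ + d ≤ AC.par g V x ↔
      s0 + 2 * e - 1 ≤ V (lf x) + V (rt x) := by
    intro x
    unfold AC.par
    rw [Int.le_ediv_iff_mul_le (by positivity), hs0, he]
    constructor <;> intro h <;> nlinarith
  have hB : ∀ x : ι ⊕ ι → Bool, AC.par g V x ≤ θ ↔ V (lf x) + V (rt x) ≤ s0 := by
    intro x
    unfold AC.par
    rw [← Int.lt_add_one_iff, Int.ediv_lt_iff_lt_mul (by positivity), hs0]
    constructor <;> intro h <;> nlinarith
  have h5 : Gam (fun x y : ι ⊕ ι → Bool => θ + d ≤ AC.par g V x ∧ AC.par g V y ≤ θ)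
      (fun x y => ∑ l, φ x l * φ y l * 1) (Real.sqrt 2 * c) := by
    refine Gam.mix (K := fun _ _ _ => 1) (by positivity) (fun x => (h1 x).le)
      (fun x => (h1 x).le) fun l => ?_
    rw [← hsq]
    suffices hh : Adv (fun x : ι ⊕ ι → Bool => θ + d ≤ AC.par g V x ∧ φ x l ≠ 0)
        (fun y => AC.par g V y ≤ θ ∧ φ y l ≠ 0) (Real.sqrt (c ^ 2 + c ^ 2)) from
      Gam.mono hh le_rfl (fun x y h => ⟨⟨h.1.1, h.2.1⟩, ⟨h.1.2, h.2.2⟩⟩) fun _ _ _ => rfl
    rcases lt_trichotomy s0 (a l + b l) with hlt | heq | hgt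
    · -- no `B`
      refine Adv.of_not (by positivity) fun x y hx hy => ?_
      have h6 := h2 y l hy.2
      have h7 := (hB y).1 hy.1
      omega
    · -- OR
      refine Adv.or_gate (hS (a l)) (hS (b l)) ?_ ?_
      · intro x hx
        have h6 := h2 x l hx.2
        have h7 := (hA x).1 hx.1
        omega
      · intro y hy
        have h6 := h2 y l hy.2
        have h7 := (hB y).1 hy.1
        constructor <;> omega
    · rcases lt_trichotomy s0 (a l + b l + 1) with hlt' | heq' | hgt'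
      · omega
      · -- AND
        refine Adv.and_gate (hS (a l)) (hS (b l)) ?_ ?_
        · intro x hx
          have h6 := h2 x l hx.2
          have h7 := (hA x).1 hx.1
          constructor <;> omega
        · intro y hy
          have h6 := h2 y l hy.2
          have h7 := (hB y).1 hy.1
          omega
      · -- no `A`
        refine Adv.of_not (by positivity) fun x y hx hy => ?_
        have h6 := h2 x l hx.2
        have h7 := (hA x).1 hx.1
        omega
  refine ((h5.add (h3.mono le_rfl (fun _ _ _ => True.intro) fun _ _ _ => rfl)).congr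
    fun x y _ => ?_).le (by linarith)
  simp

end Pool.Agent.H69.AC
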